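import Pool.Agent.K1H79.TW.Stm

/-! Cyclic cubic steps: the assembly (light version, without the big interface). -/

set_option autoImplicit false

namespace Pool.Agent.K1H33.TW

open NumberField Pool.Agent.K1H79.TW

/-- the statement `S_CYC` of `Pool.Agent.K1H79.TW.GStm` -/
def CYC' : Prop := ∀ m : ℕ, ∀ ε : ℝ, 0 < ε → ∃ C : ℝ, 0 < C ∧
  ∀ (F L : Type) [Field F] [NumberField F] [Field L] [NumberField L] [Algebra F L] [IsGalois F L],
    Module.finrank ℚ F = m → Module.finrank F L = 3 →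
      (h3 L : ℝ) ≤ C * |(discr L : ℝ)| ^ ε * |(discr F : ℝ)| ^ C

/-- the statement `S_P3` of `Pool.Agent.K1H79.TW.GStm` -/
def P3' : Prop := ∀ (m : ℕ) (δ3 C3 : ℝ), 0 < δ3 → 0 < C3 → ∃ δ C : ℝ, 0 < δ ∧ 0 < C ∧
  ∀ (E K : Type) [Field E] [NumberField E] [Field K] [NumberField K] [Algebra E K] [IsGalois E K],
    Module.finrank ℚ E = m → Module.finrank E K = 3 →
      (h3 E : ℝ) ≤ C3 * |(discr E : ℝ)| ^ (1 / 2 - δ3) →
      (h3 K : ℝ) ≤ C * |(discr K : ℝ)| ^ (1 / 2 - δ)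


theorem one_le_abs_discr (F : Type) [Field F] [NumberField F] : (1 : ℝ) ≤ |(discr F : ℝ)| := by
  have h : (1 : ℤ) ≤ |discr F| := Int.one_le_abs (NumberField.discr_ne_zero F)
  have h2 : ((1 : ℤ) : ℝ) ≤ ((|discr F| : ℤ) : ℝ) := by exact_mod_cast h
  rw [Int.cast_abs, Int.cast_one] at h2
  exact h2

theorem calc2 {D d : ℝ} (hD : 1 ≤ D) (hd : 1 ≤ d) {CT C3 η δ3 x y : ℝ} (hCT : 0 < CT) (hC3 : 0 < C3)
    (hδ3 : 0 < δ3) (hdD : D ^ η ≤ d)
    (h1 : x ≤ CT * D ^ (η * δ3 / 2) * √(D / d) * y) (h2 : y ≤ C3 * d ^ (1 / 2 - δ3)) :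
    x ≤ CT * C3 * D ^ (1 / 2 - η * δ3 / 2) := by
  have hD0 : 0 < D := by linarith
  have hd0 : 0 < d := by linarith
  have h8 : √(D / d) * d ^ (1 / 2 - δ3) = D ^ (1 / 2 : ℝ) * d ^ (-δ3) := by
    rw [Real.sqrt_eq_rpow, Real.div_rpow hD0.le hd0.le, div_mul_eq_mul_div, mul_div_assoc,
      ← Real.rpow_sub hd0]
    congr 2
    ring
  have h3 : d ^ (-δ3) ≤ D ^ (-(η * δ3)) := by
    have h4 : d ^ (-δ3) ≤ (D ^ η) ^ (-δ3) :=
      Real.rpow_le_rpow_of_nonpos (by positivity) hdD (by linarith)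
    rw [← Real.rpow_mul hD0.le] at h4
    have h5 : η * -δ3 = -(η * δ3) := by ring
    rwa [h5] at h4
  calc x ≤ CT * D ^ (η * δ3 / 2) * √(D / d) * y := h1
    _ ≤ CT * D ^ (η * δ3 / 2) * √(D / d) * (C3 * d ^ (1 / 2 - δ3)) :=
        mul_le_mul_of_nonneg_left h2 (by positivity)
    _ = CT * C3 * D ^ (η * δ3 / 2) * (√(D / d) * d ^ (1 / 2 - δ3)) := by ring
    _ = CT * C3 * D ^ (η * δ3 / 2) * (D ^ (1 / 2 : ℝ) * d ^ (-δ3)) := by rw [h8]
    _ ≤ CT * C3 * D ^ (η * δ3 / 2) * (D ^ (1 / 2 : ℝ) * D ^ (-(η * δ3))) := by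
        apply mul_le_mul_of_nonneg_left _ (by positivity)
        exact mul_le_mul_of_nonneg_left h3 (by positivity)
    _ = CT * C3 * D ^ (η * δ3 / 2 + (1 / 2 + -(η * δ3))) := by
        rw [Real.rpow_add hD0, Real.rpow_add hD0]
        ring
    _ = CT * C3 * D ^ (1 / 2 - η * δ3 / 2) := by
        congr 2
        ring

theorem p3of : S_T → CYC' → P3' := by
  intro hT hC m δ3 C3 hδ3 hC3
  obtain ⟨Cc, hCc, hcyc⟩ := hC m (1 / 8) (by norm_num)
  obtain ⟨η, hη⟩ : ∃ η : ℝ, η = 1 / (8 * Cc) := ⟨_, rfl⟩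
  have hη0 : 0 < η := by rw [hη]; positivity
  have hηC : η * Cc = 1 / 8 := by
    rw [hη]
    field_simp
  obtain ⟨CT, hCT, htr⟩ := hT (3 * m) (η * δ3 / 2) (by positivity)
  refine ⟨min (1 / 4) (η * δ3 / 2), Cc + CT * C3, lt_min (by norm_num) (by positivity),
    by positivity, ?_⟩
  intro E K _ _ _ _ _ _ hE hEK hE3
  have hD := one_le_abs_discr K
  have hd := one_le_abs_discr E
  have hD0 : 0 < |(discr K : ℝ)| := by linarith
  have hK : Module.finrank ℚ K = 3 * m := by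
    rw [← Module.finrank_mul_finrank ℚ E K, hE, hEK, mul_comm]
  by_cases hcase : |(discr E : ℝ)| ≤ |(discr K : ℝ)| ^ η
  · have h1 := hcyc E K hE hEK
    have h2 : |(discr E : ℝ)| ^ Cc ≤ |(discr K : ℝ)| ^ (1 / 8 : ℝ) := by
      rw [← hηC, Real.rpow_mul hD0.le]
      exact Real.rpow_le_rpow (abs_nonneg _) hcase hCc.le
    calc (h3 K : ℝ) ≤ Cc * |(discr K : ℝ)| ^ (1 / 8 : ℝ) * |(discr E : ℝ)| ^ Cc := h1
      _ ≤ Cc * |(discr K : ℝ)| ^ (1 / 8 : ℝ) * |(discr K : ℝ)| ^ (1 / 8 : ℝ) :=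
          mul_le_mul_of_nonneg_left h2 (by positivity)
      _ = Cc * |(discr K : ℝ)| ^ (1 / 8 + 1 / 8 : ℝ) := by
          rw [mul_assoc, ← Real.rpow_add hD0]
      _ ≤ Cc * |(discr K : ℝ)| ^ (1 / 2 - min (1 / 4) (η * δ3 / 2)) := by
          apply mul_le_mul_of_nonneg_left _ hCc.le
          apply Real.rpow_le_rpow_of_exponent_le hD
          have := min_le_left (1 / 4 : ℝ) (η * δ3 / 2)
          linarith
      _ ≤ (Cc + CT * C3) * |(discr K : ℝ)| ^ (1 / 2 - min (1 / 4) (η * δ3 / 2)) := by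
          apply mul_le_mul_of_nonneg_right _ (by positivity)
          have : 0 < CT * C3 := mul_pos hCT hC3
          linarith
  · rw [not_le] at hcase
    have h1 := htr E K hK
    have h2 := calc2 hD hd hCT hC3 hδ3 hcase.le h1 hE3
    calc (h3 K : ℝ) ≤ CT * C3 * |(discr K : ℝ)| ^ (1 / 2 - η * δ3 / 2) := h2
      _ ≤ CT * C3 * |(discr K : ℝ)| ^ (1 / 2 - min (1 / 4) (η * δ3 / 2)) := by
          apply mul_le_mul_of_nonneg_left _ (by positivity)
          apply Real.rpow_le_rpow_of_exponent_le hD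
          have := min_le_right (1 / 4 : ℝ) (η * δ3 / 2)
          linarith
      _ ≤ (Cc + CT * C3) * |(discr K : ℝ)| ^ (1 / 2 - min (1 / 4) (η * δ3 / 2)) := by
          apply mul_le_mul_of_nonneg_right _ (by positivity)
          linarith

end Pool.Agent.K1H33.TW
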