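import Pool.Agent.K1H79.TW.GStm
import Pool.Agent.K1H33.TW.P3L

/-! Cyclic cubic steps: the assembly. -/

set_option autoImplicit false

namespace Pool.Agent.K1H33.TW

theorem t_P3of : Pool.Agent.K1H79.TW.S_P3of := by
  intro hT hC
  exact p3of hT hC

end Pool.Agent.K1H33.TW
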